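import Pool.Agent.W2helper30.MT.Ae

/-!
# Examples of regular families
-/

set_option autoImplicit false

namespace Pool.Agent.W2helper30.MT

open Finset Filter MeasureTheory

lemma log_diff {a b s t : ℝ} (ha : 0 < a) (h1 : a ≤ s) (h2 : s ≤ t) (h3 : t ≤ b) :
    (t - s) / b ≤ Real.log t - Real.log s ∧ Real.log t - Real.log s ≤ (t - s) / a := by
  have hs : 0 < s := by linarith
  have ht : 0 < t := by linarith
  have hb : 0 < b := by linarith
  constructor
  · have h4 : Real.log s - Real.log t ≤ s / t - 1 := by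
      rw [← Real.log_div hs.ne' ht.ne']
      exact Real.log_le_sub_one_of_pos (by positivity)
    have h5 : (t - s) / b ≤ (t - s) / t := div_le_div_of_nonneg_left (by linarith) ht h3
    have h6 : (t - s) / t = 1 - s / t := by
      field_simp
    linarith
  · have h4 : Real.log t - Real.log s ≤ t / s - 1 := by
      rw [← Real.log_div ht.ne' hs.ne']
      exact Real.log_le_sub_one_of_pos (by positivity)
    have h5 : (t - s) / s ≤ (t - s) / a := div_le_div_of_nonneg_left (by linarith) ha h1
    have h6 : (t - s) / s = t / s - 1 := by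
      field_simp
    linarith

/-- powers with arbitrary exponents and factors -/
theorem reg_rpow (c s : ℕ → ℝ) (hc : ∀ n, 0 < c n) {σ : ℝ} (hσ : 0 < σ) {n₀ : ℕ} (hs : ∀ n, n₀ ≤ n → σ ≤ |s n|) :
    Regular (Set.Ioi 0) (fun n t => c n * t ^ (s n)) := by
  intro a b hab hsub
  have ha : 0 < a := hsub (Set.left_mem_Icc.2 hab.le)
  have hb : 0 < b := by linarith
  refine ⟨σ / b, b / a, fun n => |s n| / b, n₀, by positivity, by positivity, fun n hn => ⟨?_, fun t h1 _ => ?_, ?_⟩⟩
  · exact div_le_div_of_nonneg_right (hs n hn) hb.le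
  · have : 0 < t := by linarith
    have := hc n
    positivity
  · intro u t h1 h2 h3
    have hu : 0 < u := by linarith
    have ht : 0 < t := by linarith
    have e : Real.log (c n * t ^ s n) - Real.log (c n * u ^ s n) = s n * (Real.log t - Real.log u) := by
      rw [Real.log_mul (hc n).ne' (Real.rpow_pos_of_pos ht _).ne', Real.log_mul (hc n).ne'
        (Real.rpow_pos_of_pos hu _).ne', Real.log_rpow ht, Real.log_rpow hu]
      ring
    obtain ⟨h4, h5⟩ := log_diff ha h1 h2 h3
    have h6 : 0 ≤ Real.log t - Real.log u := le_trans (div_nonneg (by linarith) hb.le) h4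
    simp only
    rw [e, abs_mul, abs_of_nonneg h6]
    constructor
    · have := mul_le_mul_of_nonneg_left h4 (abs_nonneg (s n))
      calc |s n| / b * (t - u) = |s n| * ((t - u) / b) := by ring
        _ ≤ _ := this
    · have := mul_le_mul_of_nonneg_left h5 (abs_nonneg (s n))
      calc |s n| * (Real.log t - Real.log u) ≤ |s n| * ((t - u) / a) := this
        _ = b / a * (|s n| / b) * (t - u) := by
          field_simp

/-- exponentials with arbitrary bases and factors -/
theorem reg_exp (c s : ℕ → ℝ) (hc : ∀ n, 0 < c n) {σ : ℝ} (hσ : 0 < σ) {n₀ : ℕ} (hs : ∀ n, n₀ ≤ n → σ ≤ |s n|) :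
    Regular Set.univ (fun n t => c n * Real.exp (s n * t)) := by
  intro a b hab _
  refine ⟨σ, 1, fun n => |s n|, n₀, hσ, one_pos.le, fun n hn => ⟨hs n hn, fun t _ _ => ?_, ?_⟩⟩
  · have := hc n
    positivity
  · intro u t h1 h2 h3
    have e : Real.log (c n * Real.exp (s n * t)) - Real.log (c n * Real.exp (s n * u)) = s n * (t - u) := by
      rw [Real.log_mul (hc n).ne' (Real.exp_pos _).ne', Real.log_mul (hc n).ne' (Real.exp_pos _).ne',
        Real.log_exp, Real.log_exp]
      ring
    simp only
    rw [e, abs_mul, abs_of_nonneg (show 0 ≤ t - u by linarith), one_mul]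
    exact ⟨le_rfl, le_rfl⟩

/-- powers -/
theorem reg_pow : Regular (Set.Ioi 1) (fun n t => t ^ n) := by
  intro a b hab hsub
  have ha : 1 < a := hsub (Set.left_mem_Icc.2 hab.le)
  have h := reg_rpow (fun _ => 1) (fun n => (n : ℝ)) (fun _ => one_pos) one_pos (n₀ := 1) (fun n hn => by
    rw [abs_of_nonneg (Nat.cast_nonneg n)]
    exact_mod_cast hn) a b hab (fun x hx => by
      rw [Set.mem_Ioi]
      linarith [hx.1])
  obtain ⟨A₀, B, A, n₀, h1, h2, h3⟩ := h
  refine ⟨A₀, B, A, n₀, h1, h2, fun n hn => ?_⟩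
  obtain ⟨k1, k2, k3⟩ := h3 n hn
  simp only [one_mul, Real.rpow_natCast] at k2 k3
  exact ⟨k1, k2, k3⟩

end Pool.Agent.W2helper30.MT
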