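import Mathlib

/-!
# Almost all members of families of functions with comparable logarithmic slopes avoid sparse sets
-/

set_option autoImplicit false

namespace Pool.Agent.W2helper30.MT

open Finset Filter MeasureTheory
open scoped ENNReal

/-- the reciprocals of the members of a set of density at most `κ` on all scales -/
theorem recip_sum (S : Set ℕ) {κ : ℝ} (hκ : 0 ≤ κ)
    (hS : ∀ X : ℝ, 1 ≤ X → ({j | j ∈ S ∧ (j : ℝ) ≤ X}.ncard : ℝ) ≤ κ * X) {G : ℝ} (hG : 1 ≤ 2 * G) (k : ℕ) :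
    ∀ F : Finset ℕ, (∀ j ∈ F, j ∈ S ∧ G < (j : ℝ) ∧ (j : ℝ) ≤ G * 2 ^ k) → ∑ j ∈ F, 1 / (j : ℝ) ≤ 2 * κ * k := by
  have hG0 : 0 < G := by linarith
  induction k with
  | zero =>
    intro F hF
    have : F = ∅ := by
      rw [Finset.eq_empty_iff_forall_notMem]
      intro j hj
      obtain ⟨-, h1, h2⟩ := hF j hj
      rw [pow_zero, mul_one] at h2
      linarith
    rw [this]
    simp
  | succ k ih =>
    intro F hF
    classical
    rw [← sum_filter_add_sum_filter_not F (fun j : ℕ => (j : ℝ) ≤ G * 2 ^ k)]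
    have h1 := ih (F.filter (fun j : ℕ => (j : ℝ) ≤ G * 2 ^ k)) (fun j hj => by
      rw [mem_filter] at hj
      obtain ⟨h1, h2, -⟩ := hF j hj.1
      exact ⟨h1, h2, hj.2⟩)
    have hX : 1 ≤ G * 2 ^ (k + 1) := by
      have : (1 : ℝ) ≤ 2 ^ k := one_le_pow₀ (by norm_num)
      rw [pow_succ]
      nlinarith
    have h2 : ((F.filter (fun j : ℕ => ¬ (j : ℝ) ≤ G * 2 ^ k)).card : ℝ) ≤ κ * (G * 2 ^ (k + 1)) := by
      refine le_trans ?_ (hS _ hX)
      have hfin : {j | j ∈ S ∧ (j : ℝ) ≤ G * 2 ^ (k + 1)}.Finite :=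
        (Set.finite_Iic ⌊G * 2 ^ (k + 1)⌋₊).subset fun j hj => Nat.le_floor hj.2
      have hsub : ((F.filter (fun j : ℕ => ¬ (j : ℝ) ≤ G * 2 ^ k) : Finset ℕ) : Set ℕ) ⊆
          {j | j ∈ S ∧ (j : ℝ) ≤ G * 2 ^ (k + 1)} := by
        intro j hj
        rw [mem_coe, mem_filter] at hj
        obtain ⟨h1, -, h3⟩ := hF j hj.1
        exact ⟨h1, h3⟩
      have h3 := Set.ncard_le_ncard hsub hfin
      rw [Set.ncard_coe_finset] at h3
      exact_mod_cast h3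
    have hP : 0 < G * 2 ^ k := by positivity
    have h3 : ∑ j ∈ F.filter (fun j : ℕ => ¬ (j : ℝ) ≤ G * 2 ^ k), 1 / (j : ℝ) ≤
        (F.filter (fun j : ℕ => ¬ (j : ℝ) ≤ G * 2 ^ k)).card * (1 / (G * 2 ^ k)) := by
      rw [← nsmul_eq_mul]
      refine sum_le_card_nsmul _ _ _ fun j hj => ?_
      rw [mem_filter, not_le] at hj
      exact one_div_le_one_div_of_le hP hj.2.le
    have h4 : ((F.filter (fun j : ℕ => ¬ (j : ℝ) ≤ G * 2 ^ k)).card : ℝ) * (1 / (G * 2 ^ k)) ≤ 2 * κ := by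
      refine (mul_le_mul_of_nonneg_right h2 (by positivity)).trans (le_of_eq ?_)
      rw [pow_succ]
      field_simp
    push_cast
    linarith

/-- a number of dyadic blocks -/
lemma blocks {r : ℝ} (hr : 1 ≤ r) : ∃ k : ℕ, r ≤ 2 ^ k ∧ (k : ℝ) ≤ 2 * Real.log r + 1 := by
  have h2 : (1 : ℝ) / 2 ≤ Real.log 2 := by
    have := Real.log_two_gt_d9
    linarith
  have h0 : 0 ≤ Real.log r := Real.log_nonneg hr
  have h3 : 0 < Real.log 2 := by linarith
  refine ⟨⌈Real.log r / Real.log 2⌉₊, ?_, ?_⟩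
  · have h4 : Real.log r ≤ Real.log 2 * ⌈Real.log r / Real.log 2⌉₊ := by
      have := Nat.le_ceil (Real.log r / Real.log 2)
      rw [div_le_iff₀ h3] at this
      linarith
    have h5 : (2 : ℝ) ^ ⌈Real.log r / Real.log 2⌉₊ = Real.exp (Real.log 2 * ⌈Real.log r / Real.log 2⌉₊) := by
      rw [mul_comm, Real.exp_nat_mul, Real.exp_log (by norm_num)]
    rw [h5, ← Real.exp_log (show 0 < r by linarith)]
    rw [Real.exp_le_exp, Real.log_exp]
    exact h4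
  · have h4 := (Nat.ceil_lt_add_one (a := Real.log r / Real.log 2) (by positivity)).le
    refine h4.trans ?_
    have h5 : Real.log r / Real.log 2 ≤ 2 * Real.log r := by
      rw [div_le_iff₀ h3]
      nlinarith
    linarith

/-- the windows where the function is near a given integer are short -/
lemma win_diam {L A a b : ℝ} {g : ℝ → ℝ} (hL : 0 ≤ L) (hA : 0 < A) (hg : ∀ t, a ≤ t → t ≤ b → 0 < g t)
    (hlip : ∀ s t, a ≤ s → s ≤ t → t ≤ b → A * (t - s) ≤ |Real.log (g t) - Real.log (g s)|) {j : ℕ} (hj : 1 ≤ j) :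
    volume {t | a ≤ t ∧ t ≤ b ∧ |(j : ℝ) - g t| ≤ L ∧ |(j : ℝ) - g t| ≤ g t / 3} ≤
      ENNReal.ofReal (4 * L / A * (1 / j)) := by
  have hj0 : (0 : ℝ) < j := by exact_mod_cast hj
  -- the logarithm of the quotient of two values
  have key : ∀ u v : ℝ, 0 < u → 0 < v → |(j : ℝ) - u| ≤ L → |(j : ℝ) - u| ≤ u / 3 → |(j : ℝ) - v| ≤ L →
      |(j : ℝ) - v| ≤ v / 3 → Real.log u - Real.log v ≤ 4 * L / j := by
    intro u v hu hv h1 h2 h3 h4
    rw [abs_le] at h1 h2 h3 h4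
    rw [← Real.log_div hu.ne' hv.ne']
    refine (Real.log_le_sub_one_of_pos (by positivity)).trans ?_
    have h5 : (3 : ℝ) / 4 * j ≤ v := by linarith [h4.1, h4.2]
    rw [div_sub_one hv.ne', div_le_div_iff₀ hv hj0]
    have h6 : u - v ≤ 2 * L := by linarith [h1.1, h1.2, h3.1, h3.2]
    nlinarith
  refine (Real.volume_le_diam _).trans ?_
  refine Metric.ediam_le fun s hs t ht => ?_
  rw [edist_dist, Real.dist_eq]
  apply ENNReal.ofReal_le_ofReal
  obtain ⟨s1, s2, s3, s4⟩ := hs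
  obtain ⟨t1, t2, t3, t4⟩ := ht
  have e : 4 * L / A * (1 / j) = 4 * L / j / A := by
    field_simp
  rw [e, le_div_iff₀ hA]
  have hk1 := key (g s) (g t) (hg s s1 s2) (hg t t1 t2) s3 s4 t3 t4
  have hk2 := key (g t) (g s) (hg t t1 t2) (hg s s1 s2) t3 t4 s3 s4
  rcases le_total s t with hst | hst
  · have h1 := hlip s t s1 hst t2
    rw [abs_sub_comm, abs_of_nonneg (show 0 ≤ t - s by linarith)]
    have h2 : |Real.log (g t) - Real.log (g s)| ≤ 4 * L / j := abs_le.2 ⟨by linarith, by linarith⟩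
    linarith
  · have h1 := hlip t s t1 hst s2
    rw [abs_of_nonneg (show 0 ≤ s - t by linarith)]
    have h2 : |Real.log (g s) - Real.log (g t)| ≤ 4 * L / j := abs_le.2 ⟨by linarith, by linarith⟩
    linarith

/-- the parameters for which the function is near a member of a sparse set -/
theorem vol_bad {S : Set ℕ} {κ L A B a b : ℝ} {g : ℝ → ℝ} (hκ : 0 ≤ κ) (hL : 0 ≤ L) (hA : 0 < A) (hab : a ≤ b)
    (hS1 : ∀ j ∈ S, 1 ≤ j) (hS : ∀ X : ℝ, 1 ≤ X → ({j | j ∈ S ∧ (j : ℝ) ≤ X}.ncard : ℝ) ≤ κ * X)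
    (hg : ∀ t, a ≤ t → t ≤ b → 0 < g t)
    (hlip : ∀ s t, a ≤ s → s ≤ t → t ≤ b → A * (t - s) ≤ |Real.log (g t) - Real.log (g s)| ∧
      |Real.log (g t) - Real.log (g s)| ≤ B * A * (t - s)) :
    volume {t | a ≤ t ∧ t ≤ b ∧ ∃ j ∈ S, |(j : ℝ) - g t| ≤ L ∧ |(j : ℝ) - g t| ≤ g t / 3} ≤
      ENNReal.ofReal (8 * (3 / A + 4 * B * (b - a)) * (L * κ)) := by
  obtain ⟨V, hV⟩ : ∃ V, V = B * A * (b - a) := ⟨_, rfl⟩
  have hV0 : 0 ≤ V := by
    rw [hV]
    exact (abs_nonneg _).trans (hlip a b le_rfl hab le_rfl).2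
  have hga := hg a le_rfl hab
  obtain ⟨G, hGe⟩ : ∃ G, G = max (g a * Real.exp (-V)) 1 / 2 := ⟨_, rfl⟩
  have hG1 : 1 ≤ 2 * G := by
    rw [hGe]
    have := le_max_right (g a * Real.exp (-V)) 1
    linarith
  have hG2 : g a * Real.exp (-V) ≤ 2 * G := by
    rw [hGe]
    have := le_max_left (g a * Real.exp (-V)) 1
    linarith
  have hG0 : 0 < G := by linarith
  -- the range of the function
  have hrange : ∀ t, a ≤ t → t ≤ b → g a * Real.exp (-V) ≤ g t ∧ g t ≤ g a * Real.exp V := by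
    intro t h1 h2
    have hgt := hg t h1 h2
    have h3 := (hlip a t le_rfl h1 h2).2
    have hBA : 0 ≤ B * A * (b - t) := by
      rcases eq_or_lt_of_le h2 with h4 | h4
      · rw [h4]
        simp
      · have h5 := (hlip t b h1 h2 le_rfl)
        exact (abs_nonneg _).trans h5.2
    have h4 : |Real.log (g t) - Real.log (g a)| ≤ V := by
      rw [hV]
      have : B * A * (b - a) = B * A * (b - t) + B * A * (t - a) := by ring
      linarith
    rw [abs_le] at h4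
    have e1 : g t = Real.exp (Real.log (g t)) := (Real.exp_log hgt).symm
    have e2 : g a = Real.exp (Real.log (g a)) := (Real.exp_log hga).symm
    constructor
    · rw [e1, e2, ← Real.exp_add, Real.exp_le_exp]
      linarith [h4.1]
    · rw [e1, e2, ← Real.exp_add, Real.exp_le_exp]
      linarith [h4.2]
  obtain ⟨k, hk1, hk2⟩ := blocks (r := 8 / 3 * Real.exp (2 * V)) (by
    have : 1 ≤ Real.exp (2 * V) := Real.one_le_exp (by linarith)
    linarith)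
  have hk3 : (k : ℝ) ≤ 3 + 4 * V := by
    rw [Real.log_mul (by norm_num) (Real.exp_pos _).ne', Real.log_exp] at hk2
    have h8 : Real.log (8 / 3) ≤ 1 := by
      rw [Real.log_le_iff_le_exp (by norm_num)]
      have := Real.exp_one_gt_d9
      linarith
    linarith
  -- the upper end
  have htop : g a * Real.exp V ≤ 2 * G * Real.exp (2 * V) := by
    have e1 : g a * Real.exp V = g a * Real.exp (-V) * Real.exp (2 * V) := by
      rw [mul_assoc, ← Real.exp_add]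
      congr 2
      ring
    rw [e1]
    exact mul_le_mul_of_nonneg_right hG2 (Real.exp_pos _).le
  have hfin : {j | j ∈ S ∧ (G < (j : ℝ) ∧ (j : ℝ) ≤ G * 2 ^ k)}.Finite :=
    (Set.finite_Iic ⌊G * 2 ^ k⌋₊).subset fun j hj => Nat.le_floor hj.2.2
  have hsub : {t | a ≤ t ∧ t ≤ b ∧ ∃ j ∈ S, |(j : ℝ) - g t| ≤ L ∧ |(j : ℝ) - g t| ≤ g t / 3} ⊆
      ⋃ j ∈ hfin.toFinset, {t | a ≤ t ∧ t ≤ b ∧ |(j : ℝ) - g t| ≤ L ∧ |(j : ℝ) - g t| ≤ g t / 3} := by
    rintro t ⟨h1, h2, j, hj, h3, h4⟩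
    rw [Set.mem_iUnion₂]
    refine ⟨j, ?_, h1, h2, h3, h4⟩
    rw [Set.Finite.mem_toFinset]
    obtain ⟨r1, r2⟩ := hrange t h1 h2
    have h5 := hg t h1 h2
    have hj1 : (1 : ℝ) ≤ j := by exact_mod_cast hS1 j hj
    rw [abs_le] at h4
    refine ⟨hj, ?_, ?_⟩
    · rw [hGe, div_lt_iff₀ (by norm_num : (0 : ℝ) < 2), max_lt_iff]
      constructor
      · linarith [h4.1, h4.2]
      · linarith
    · have h6 : (j : ℝ) ≤ 4 / 3 * (2 * G * Real.exp (2 * V)) := by linarith [h4.1, h4.2]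
      have h7 : G * (8 / 3 * Real.exp (2 * V)) ≤ G * 2 ^ k := mul_le_mul_of_nonneg_left hk1 hG0.le
      linarith
  have hsum := recip_sum S hκ hS hG1 k hfin.toFinset (fun j hj => by
    rw [Set.Finite.mem_toFinset] at hj
    exact hj)
  calc volume {t | a ≤ t ∧ t ≤ b ∧ ∃ j ∈ S, |(j : ℝ) - g t| ≤ L ∧ |(j : ℝ) - g t| ≤ g t / 3}
      ≤ volume (⋃ j ∈ hfin.toFinset,
          {t | a ≤ t ∧ t ≤ b ∧ |(j : ℝ) - g t| ≤ L ∧ |(j : ℝ) - g t| ≤ g t / 3}) := measure_mono hsub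
    _ ≤ ∑ j ∈ hfin.toFinset, volume {t | a ≤ t ∧ t ≤ b ∧ |(j : ℝ) - g t| ≤ L ∧ |(j : ℝ) - g t| ≤ g t / 3} :=
        measure_biUnion_finset_le _ _
    _ ≤ ∑ j ∈ hfin.toFinset, ENNReal.ofReal (4 * L / A * (1 / j)) := by
        refine sum_le_sum fun j hj => ?_
        rw [Set.Finite.mem_toFinset] at hj
        exact win_diam hL hA hg (fun s t h1 h2 h3 => (hlip s t h1 h2 h3).1) (hS1 j hj.1)
    _ = ENNReal.ofReal (∑ j ∈ hfin.toFinset, 4 * L / A * (1 / j)) := by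
        rw [ENNReal.ofReal_sum_of_nonneg]
        intro j _
        positivity
    _ ≤ ENNReal.ofReal (8 * (3 / A + 4 * B * (b - a)) * (L * κ)) := by
        apply ENNReal.ofReal_le_ofReal
        rw [← mul_sum]
        refine (mul_le_mul_of_nonneg_left hsum (by positivity)).trans ?_
        have h1 : 4 * L / A * (2 * κ * k) ≤ 4 * L / A * (2 * κ * (3 + 4 * V)) := by
          apply mul_le_mul_of_nonneg_left _ (by positivity)
          apply mul_le_mul_of_nonneg_left hk3 (by positivity)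
        refine h1.trans (le_of_eq ?_)
        rw [hV]
        field_simp
        ring

/-- The positive functions `g n` on the open set `I` have comparable logarithmic slopes: on every compact interval in `I`, for
all large `n`, `A n |t - s| ≤ |log (g n t) - log (g n s)| ≤ B A n |t - s|` with some `A n ≥ A₀ > 0`, and a constant `B`. -/
def Regular (I : Set ℝ) (g : ℕ → ℝ → ℝ) : Prop :=
  ∀ a b : ℝ, a < b → Set.Icc a b ⊆ I → ∃ (A₀ B : ℝ) (A : ℕ → ℝ) (n₀ : ℕ), 0 < A₀ ∧ 0 ≤ B ∧ ∀ n : ℕ, n₀ ≤ n →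
    A₀ ≤ A n ∧ (∀ t, a ≤ t → t ≤ b → 0 < g n t) ∧
    ∀ s t, a ≤ s → s ≤ t → t ≤ b → A n * (t - s) ≤ |Real.log (g n t) - Real.log (g n s)| ∧
      |Real.log (g n t) - Real.log (g n s)| ≤ B * A n * (t - s)

/-- **Borel-Cantelli for regular families** -/
theorem ae_family {I : Set ℝ} (hI : IsOpen I) {g : ℕ → ℝ → ℝ} (hg : Regular I g) (S : ℕ → Set ℕ) (L κ : ℕ → ℝ)
    (hL : ∀ n, 0 ≤ L n) (hκ : ∀ n, 0 ≤ κ n) (hS1 : ∀ n, ∀ j ∈ S n, 1 ≤ j)
    (hS : ∀ n, ∀ X : ℝ, 1 ≤ X → ({j | j ∈ S n ∧ (j : ℝ) ≤ X}.ncard : ℝ) ≤ κ n * X)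
    (hsum : Summable (fun n => L n * κ n)) :
    ∃ E : Set ℝ, volume E = 0 ∧ ∀ t ∈ I, t ∉ E → ∃ n₀ : ℕ, ∀ n : ℕ, n₀ ≤ n → ∀ j ∈ S n,
      |(j : ℝ) - g n t| ≤ g n t / 3 → L n < |(j : ℝ) - g n t| := by
  classical
  obtain ⟨W, hW⟩ : ∃ W : ℚ × ℚ → Set ℝ, W = fun q => if q.1 < q.2 ∧ Set.Icc (q.1 : ℝ) q.2 ⊆ I then
    {t | ∃ᶠ n in atTop, (q.1 : ℝ) ≤ t ∧ t ≤ q.2 ∧ ∃ j ∈ S n, |(j : ℝ) - g n t| ≤ L n ∧
      |(j : ℝ) - g n t| ≤ g n t / 3} else ∅ := ⟨_, rfl⟩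
  have hW0 : ∀ q, volume (W q) = 0 := by
    intro q
    rw [hW]
    simp only
    by_cases hq : q.1 < q.2 ∧ Set.Icc (q.1 : ℝ) q.2 ⊆ I
    · rw [if_pos hq]
      have hq1 : (q.1 : ℝ) < q.2 := by exact_mod_cast hq.1
      obtain ⟨A₀, B, A, n₀, hA₀, hB, hAn⟩ := hg _ _ hq1 hq.2
      obtain ⟨c, hc⟩ : ∃ c, c = 8 * (3 / A₀ + 4 * B * ((q.2 : ℝ) - q.1)) := ⟨_, rfl⟩
      have h1 : Summable (fun n => c * (L n * κ n)) := hsum.mul_left _
      -- remove the first members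
      have h2 : {t : ℝ | ∃ᶠ n in atTop, (q.1 : ℝ) ≤ t ∧ t ≤ q.2 ∧ ∃ j ∈ S n, |(j : ℝ) - g n t| ≤ L n ∧
          |(j : ℝ) - g n t| ≤ g n t / 3} ⊆
          {t : ℝ | ∃ᶠ n in atTop, t ∈ (if n₀ ≤ n then {t : ℝ | (q.1 : ℝ) ≤ t ∧ t ≤ q.2 ∧ ∃ j ∈ S n,
            |(j : ℝ) - g n t| ≤ L n ∧ |(j : ℝ) - g n t| ≤ g n t / 3} else ∅)} := by
        intro t ht
        rw [Set.mem_setOf_eq] at ht ⊢
        refine (ht.and_eventually (eventually_ge_atTop n₀)).mono fun n hn => ?_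
        rw [if_pos hn.2]
        exact hn.1
      refine measure_mono_null h2 ?_
      apply measure_setOf_frequently_eq_zero
      have h3 : ∑' n, volume (if n₀ ≤ n then {t : ℝ | (q.1 : ℝ) ≤ t ∧ t ≤ q.2 ∧ ∃ j ∈ S n,
            |(j : ℝ) - g n t| ≤ L n ∧ |(j : ℝ) - g n t| ≤ g n t / 3} else ∅) ≤
          ∑' n, ENNReal.ofReal (c * (L n * κ n)) := by
        refine ENNReal.tsum_le_tsum fun n => ?_
        by_cases hn : n₀ ≤ n
        · rw [if_pos hn]
          obtain ⟨k1, k2, k3⟩ := hAn n hn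
          have hA : 0 < A n := lt_of_lt_of_le hA₀ k1
          refine (vol_bad (hκ n) (hL n) hA hq1.le (hS1 n) (hS n) k2 k3).trans ?_
          apply ENNReal.ofReal_le_ofReal
          rw [hc]
          apply mul_le_mul_of_nonneg_right _ (mul_nonneg (hL n) (hκ n))
          have : 3 / A n ≤ 3 / A₀ := div_le_div_of_nonneg_left (by norm_num) hA₀ k1
          linarith
        · rw [if_neg hn]
          simp
      exact ne_top_of_le_ne_top h1.tsum_ofReal_ne_top h3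
    · rw [if_neg hq]
      simp
  refine ⟨⋃ q, W q, (measure_iUnion_null_iff).2 hW0, fun t ht hE => ?_⟩
  obtain ⟨ε, hε, hball⟩ := Metric.isOpen_iff.1 hI t ht
  obtain ⟨a, ha1, ha2⟩ := exists_rat_btwn (show t - ε < t by linarith)
  obtain ⟨b, hb1, hb2⟩ := exists_rat_btwn (show t < t + ε by linarith)
  have hab : a < b := by
    have : (a : ℝ) < b := ha2.trans hb1
    exact_mod_cast this
  have hsub : Set.Icc (a : ℝ) b ⊆ I := by
    intro x hx
    apply hball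
    rw [Metric.mem_ball, Real.dist_eq, abs_lt]
    constructor <;> linarith [hx.1, hx.2]
  rw [Set.mem_iUnion] at hE
  push Not at hE
  have h1 := hE (a, b)
  rw [hW] at h1
  simp only at h1
  rw [if_pos ⟨hab, hsub⟩, Set.mem_setOf_eq, Filter.not_frequently, eventually_atTop] at h1
  obtain ⟨n₀, hn⟩ := h1
  refine ⟨n₀, fun n hn1 j hj hw => ?_⟩
  by_contra hcon
  rw [not_lt] at hcon
  exact hn n hn1 ⟨ha2.le, hb1.le, j, hj, hcon, hw⟩

end Pool.Agent.W2helper30.MT
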